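import Pool.Agent.N276.TT.Group
import Pool.Agent.R481.TraceFS

/-!
Measures on the circle which are reproduced by combinations of a sequence of integers.
-/

set_option autoImplicit false

open MeasureTheory Filter Topology
open scoped ENNReal ComplexConjugate

namespace Pool.Agent.N276.TT

open Pool.Agent.Results.MP_96e181_an.FiniteSums (hc lim0 norm_fourier hc_nonneg hc_le hc_cont)
open Pool.Agent.R481.TraceFS (cos_pow)

/-- the combinations `n i`, `n i - n j`, `n i + n j - n k` reproduce `c` from `a` -/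
def Three (a c : ℤ → ℂ) (n : ℕ → ℤ) : Prop :=
  ∀ m : ℤ, ∀ ε : ℝ, 0 < ε →
    (∀ᶠ i in atTop, ‖a (m * n i) - c m‖ ≤ ε) ∧
    (∀ᶠ j in atTop, ∀ᶠ i in atTop, ‖a (m * (n i - n j)) - c m‖ ≤ ε) ∧
    (∀ᶠ k in atTop, ∀ᶠ j in atTop, ∀ᶠ i in atTop, ‖a (m * (n i + n j - n k)) - c m‖ ≤ ε)

/-- the finite sums reproduce `c` from `a` -/
def Sums (a c : ℤ → ℂ) (n : ℕ → ℤ) : Prop :=
  ∀ m : ℤ, ∀ r : ℕ, 0 < r → ∀ ε : ℝ, 0 < ε → ∃ N : ℕ, ∀ B : Finset ℕ, B.card = r →
    (∀ i ∈ B, N ≤ i) → ‖a (m * ∑ i ∈ B, n i) - c m‖ ≤ ε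

lemma fourier_smul (m s : ℤ) (x : UnitAddCircle) : (fourier m (s • x) : ℂ) = fourier (m * s) x := by
  rw [fourier_apply, fourier_apply, smul_smul]

/-- the functions `e(m n_i x)` -/
noncomputable def fn (n : ℕ → ℤ) (m : ℤ) (i : ℕ) (x : UnitAddCircle) : ℂ := fourier (m * n i) x

lemma fn_sm (n : ℕ → ℤ) (m : ℤ) (i : ℕ) : StronglyMeasurable (fn n m i) :=
  (fourier (m * n i)).continuous.stronglyMeasurable

variable {μ ν : Measure UnitAddCircle} [IsProbabilityMeasure μ] [IsProbabilityMeasure ν]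

/-- there is a system of weak limits -/
lemma exists_sys (μ : Measure UnitAddCircle) [IsProbabilityMeasure μ] (F : Ultrafilter ℕ) (n : ℕ → ℤ) :
    ∃ χ : ℤ → UnitAddCircle → ℂ, Sys μ F (fn n) χ := by
  have h : ∀ m, ∃ ψ, WL μ F (fn n m) ψ := by
    intro m
    obtain ⟨ψ, h1, h2, h3⟩ := weak_limit (μ := μ) F (fn n m) (fn_sm n m)
      (fun i x => (norm_fourier _ _).le)
    exact ⟨ψ, fn_sm n m, fun i x => (norm_fourier _ _).le, h1, h2, h3⟩
  choose χ hχ using h
  refine ⟨χ, hχ, fun m i x => norm_fourier _ _, fun i x => ?_, fun m m' i x => ?_⟩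
  · show (fourier (0 * n i) x : ℂ) = 1
    rw [zero_mul, fourier_zero]
  · show (fourier ((m + m') * n i) x : ℂ) = fourier (m * n i) x * fourier (m' * n i) x
    rw [← fourier_add, add_mul]

/-- the coefficients of `ν` are the measures of the sets where the limits are one -/
lemma coeff_of_three {n : ℕ → ℤ} {c : ℤ → ℂ} {F : Ultrafilter ℕ} (hF : (F : Filter ℕ) ≤ atTop)
    {χ : ℤ → UnitAddCircle → ℂ} (S : Sys μ F (fn n) χ)
    (h : Three (fun m => ∫ x, (fourier m x : ℂ) ∂μ) c n) (m : ℤ) :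
    c m = (μ.real {x | χ m x = 1} : ℂ) := by
  have W := S.wl m
  have h1 : ∫ x, χ m x ∂μ = c m := W.one hF fun ε hε => (h m ε hε).1
  have h2 : ∫ x, χ m x * conj (χ m x) ∂μ = c m := by
    refine W.two hF fun ε hε => ?_
    filter_upwards [(h m ε hε).2.1] with j hj
    filter_upwards [hj] with i hi
    have e : ∀ x, fn n m i x * conj (fn n m j x) = fourier (m * (n i - n j)) x := by
      intro x
      show (fourier (m * n i) x : ℂ) * conj (fourier (m * n j) x : ℂ) = _
      rw [← fourier_neg, ← fourier_add]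
      congr 1
      ring_nf
    simp only [e]
    exact hi
  have h3 : ∫ x, χ m x * χ m x * conj (χ m x) ∂μ = c m := by
    refine W.three hF fun ε hε => ?_
    filter_upwards [(h m ε hε).2.2] with k hk
    filter_upwards [hk] with j hj
    filter_upwards [hj] with i hi
    have e : ∀ x, fn n m i x * (fn n m j x * conj (fn n m k x)) =
        fourier (m * (n i + n j - n k)) x := by
      intro x
      show (fourier (m * n i) x : ℂ) * ((fourier (m * n j) x : ℂ) * conj (fourier (m * n k) x : ℂ)) = _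
      rw [← fourier_neg, ← fourier_add, ← fourier_add]
      congr 1
      ring_nf
    simp only [e]
    exact hi
  rw [← h1]
  exact moment_eq W.mψ (zero_or_one W.mψ W.bψ (h2.trans h3.symm))

lemma coeff_of_sums {n : ℕ → ℤ} {c : ℤ → ℂ} {F : Ultrafilter ℕ} (hF : (F : Filter ℕ) ≤ atTop)
    {χ : ℤ → UnitAddCircle → ℂ} (S : Sys μ F (fn n) χ)
    (h : Sums (fun m => ∫ x, (fourier m x : ℂ) ∂μ) c n) (m : ℤ) :
    c m = (μ.real {x | χ m x = 1} : ℂ) := by
  have W := S.wl m
  refine all_moments W.mψ W.bψ fun r hr => W.pow hF fun ε hε => ?_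
  obtain ⟨N, hN⟩ := h m r hr ε hε
  refine ⟨N, fun B hB hBN => ?_⟩
  have e : ∀ x, ∏ i ∈ B, fn n m i x = fourier (m * ∑ i ∈ B, n i) x := by
    intro x
    have : ∀ B : Finset ℕ, ∏ i ∈ B, fn n m i x = fourier (m * ∑ i ∈ B, n i) x := by
      intro B
      classical
      induction B using Finset.induction_on with
      | empty => simp
      | insert i s hi ih =>
        rw [Finset.prod_insert hi, ih, Finset.sum_insert hi]
        show (fourier (m * n i) x : ℂ) * _ = _
        rw [← fourier_add, mul_add]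
    exact this B
  simp only [e]
  exact hN B hB hBN

/-- both cases -/
lemma coeff_of {n : ℕ → ℤ} {c : ℤ → ℂ} {F : Ultrafilter ℕ} (hF : (F : Filter ℕ) ≤ atTop)
    {χ : ℤ → UnitAddCircle → ℂ} (S : Sys μ F (fn n) χ)
    (h : Three (fun m => ∫ x, (fourier m x : ℂ) ∂μ) c n ∨
      Sums (fun m => ∫ x, (fourier m x : ℂ) ∂μ) c n) (m : ℤ) :
    c m = (μ.real {x | χ m x = 1} : ℂ) :=
  h.elim (fun h => coeff_of_three hF S h m) fun h => coeff_of_sums hF S h m

lemma first_of {n : ℕ → ℤ} {a c : ℤ → ℂ} (h : Three a c n ∨ Sums a c n) (m : ℤ) :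
    Tendsto (fun i => a (m * n i)) atTop (𝓝 (c m)) := by
  rw [Metric.tendsto_nhds]
  intro ε hε
  rcases h with h | h
  · filter_upwards [(h m (ε / 2) (by positivity)).1] with i hi
    rw [dist_eq_norm]
    linarith
  · obtain ⟨N, hN⟩ := h m 1 one_pos (ε / 2) (by positivity)
    filter_upwards [eventually_ge_atTop N] with i hi
    have := hN {i} (Finset.card_singleton i) (by simpa using hi)
    rw [Finset.sum_singleton] at this
    rw [dist_eq_norm]
    linarith

/-- the coefficient is at most the mean of the powers of `|cos (π m x)|` -/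
lemma coeff_le {n : ℕ → ℤ} {F : Ultrafilter ℕ} (hF : (F : Filter ℕ) ≤ atTop)
    {χ : ℤ → UnitAddCircle → ℂ} (S : Sys μ F (fn n) χ)
    (h : Three (fun m => ∫ x, (fourier m x : ℂ) ∂μ) (fun m => ∫ x, (fourier m x : ℂ) ∂ν) n ∨
      Sums (fun m => ∫ x, (fourier m x : ℂ) ∂μ) (fun m => ∫ x, (fourier m x : ℂ) ∂ν) n) (m : ℤ)
    (L : ℕ) : μ.real {x | χ m x = 1} ≤ ∫ x, hc m x ^ (2 * L) ∂ν := by
  refine (S.wl m).ge (S.one m) L ?_
  have hi : ∀ (ρ : Measure UnitAddCircle) [IsProbabilityMeasure ρ] (k : ℤ),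
      Integrable (fun x : UnitAddCircle => (fourier k x : ℂ)) ρ := fun ρ _ k =>
    Integrable.of_bound (fourier k).continuous.aestronglyMeasurable 1
      (Eventually.of_forall fun x => (norm_fourier _ _).le)
  -- the integral of a power of the cosine
  have e1 : ((∫ x, hc m x ^ (2 * L) ∂ν : ℝ) : ℂ) =
      (∑ i ∈ Finset.range (2 * L + 1), ((2 * L).choose i : ℂ) *
        ∫ x, (fourier (m * ((i : ℤ) - L)) x : ℂ) ∂ν) / 4 ^ L := by
    rw [← integral_complex_ofReal]
    simp_rw [cos_pow]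
    rw [integral_div, integral_finsetSum _ fun i _ => (hi ν _).const_mul _]
    simp_rw [integral_const_mul]
  have e2 : ∀ i : ℕ, ((∫ x, ‖(1 + fn n m i x) / 2‖ ^ (2 * L) ∂μ : ℝ) : ℂ) =
      (∑ k ∈ Finset.range (2 * L + 1), ((2 * L).choose k : ℂ) *
        ∫ x, (fourier (m * ((k : ℤ) - L) * n i) x : ℂ) ∂μ) / 4 ^ L := by
    intro i
    have e3 : ∀ x, ‖(1 + fn n m i x) / 2‖ ^ (2 * L) = hc (m * n i) x ^ (2 * L) := fun x => rfl
    simp_rw [e3]
    rw [← integral_complex_ofReal]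
    simp_rw [cos_pow]
    rw [integral_div, integral_finsetSum _ fun i _ => (hi μ _).const_mul _]
    simp_rw [integral_const_mul]
    congr 1
    refine Finset.sum_congr rfl fun k _ => ?_
    rw [show m * n i * ((k : ℤ) - L) = m * ((k : ℤ) - L) * n i by ring]
  have h1 : Tendsto (fun i : ℕ => ((∫ x, ‖(1 + fn n m i x) / 2‖ ^ (2 * L) ∂μ : ℝ) : ℂ)) F
      (𝓝 ((∫ x, hc m x ^ (2 * L) ∂ν : ℝ) : ℂ)) := by
    rw [e1]
    simp only [e2]
    refine Tendsto.div_const ?_ _
    refine tendsto_finsetSum _ fun k _ => ?_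
    exact ((first_of h (m * ((k : ℤ) - L))).mono_left hF).const_mul _
  have h2 := (Complex.continuous_re.tendsto _).comp h1
  simp only [Function.comp_def, Complex.ofReal_re] at h2
  exact h2

lemma tendsto_hc (ν : Measure UnitAddCircle) [IsProbabilityMeasure ν] (m : ℤ) :
    Tendsto (fun L : ℕ => ∫ x, hc m x ^ (2 * L) ∂ν) atTop (𝓝 (ν.real {x | hc m x = 1})) := by
  have hmeas : MeasurableSet {x : UnitAddCircle | hc m x = 1} :=
    (isClosed_eq (hc_cont m) continuous_const).measurableSet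
  have h1 : Tendsto (fun L : ℕ => ∫ x, hc m x ^ (2 * L) ∂ν) atTop
      (𝓝 (∫ x, ({x : UnitAddCircle | hc m x = 1} : Set UnitAddCircle).indicator
        (fun _ => (1 : ℝ)) x ∂ν)) := by
    refine tendsto_integral_of_dominated_convergence (fun _ => (1 : ℝ))
      (fun L => ((hc_cont m).pow (2 * L)).aestronglyMeasurable) (integrable_const _)
      (fun L => Eventually.of_forall fun x => ?_) (Eventually.of_forall fun x => ?_)
    · rw [Real.norm_of_nonneg (pow_nonneg (hc_nonneg _ _) _)]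
      exact pow_le_one₀ (hc_nonneg _ _) (hc_le _ _)
    · by_cases hx : hc m x = 1
      · rw [Set.indicator_of_mem (by exact hx), hx]
        simp
      · rw [Set.indicator_of_notMem (by exact hx)]
        have h2 : hc m x < 1 := lt_of_le_of_ne (hc_le m x) hx
        have h3 := tendsto_pow_atTop_nhds_zero_of_lt_one (r := hc m x ^ 2) (sq_nonneg _)
          (by nlinarith [hc_nonneg m x])
        refine h3.congr fun L => ?_
        rw [← pow_mul]
  rw [integral_indicator hmeas] at h1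
  simpa using h1

/-- the coefficient is at most the measure of the kernel of the character -/
lemma coeff_le_ker {n : ℕ → ℤ} {F : Ultrafilter ℕ} (hF : (F : Filter ℕ) ≤ atTop)
    {χ : ℤ → UnitAddCircle → ℂ} (S : Sys μ F (fn n) χ)
    (h : Three (fun m => ∫ x, (fourier m x : ℂ) ∂μ) (fun m => ∫ x, (fourier m x : ℂ) ∂ν) n ∨
      Sums (fun m => ∫ x, (fourier m x : ℂ) ∂μ) (fun m => ∫ x, (fourier m x : ℂ) ∂ν) n) (m : ℤ) :
    μ.real {x | χ m x = 1} ≤ ν.real {x | hc m x = 1} :=
  ge_of_tendsto (tendsto_hc ν m) (Eventually.of_forall fun L => coeff_le hF S h m L)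

/-- summary: the coefficients of a reproduced measure are nonnegative, they are at most the masses of
the kernels of the characters, and they form a mixture of the indicators of the subgroups of `ℤ` -/
theorem circle (μ ν : Measure UnitAddCircle) [IsProbabilityMeasure μ] [IsProbabilityMeasure ν]
    (n : ℕ → ℤ)
    (h : Three (fun m => ∫ x, (fourier m x : ℂ) ∂μ) (fun m => ∫ x, (fourier m x : ℂ) ∂ν) n ∨
      Sums (fun m => ∫ x, (fourier m x : ℂ) ∂μ) (fun m => ∫ x, (fourier m x : ℂ) ∂ν) n) :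
    ∃ b : ℤ → ℝ, (∀ m, 0 ≤ b m) ∧ (∀ m, ∫ x, (fourier m x : ℂ) ∂ν = (b m : ℂ)) ∧
      (∀ m, b m ≤ ν.real {x | hc m x = 1}) ∧
      ∃ w : ℕ → ℝ, (∀ d, 0 ≤ w d) ∧
        ∀ m : ℤ, HasSum (fun d : ℕ => if (d : ℤ) ∣ m then w d else 0) (b m) := by
  have hF : ((hyperfilter ℕ : Ultrafilter ℕ) : Filter ℕ) ≤ atTop := by
    exact Nat.hyperfilter_le_atTop
  obtain ⟨χ, S⟩ := exists_sys μ (hyperfilter ℕ) n
  exact ⟨fun m => μ.real {x | χ m x = 1}, fun m => measureReal_nonneg, coeff_of hF S h,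
    coeff_le_ker hF S h, S.mixture⟩

end Pool.Agent.N276.TT
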