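import Pool.Agent.N276.TT.Sums

/-!
The weak limits of the powers of a sequence of unimodular functions: the exponents for which the
limit is one form a group.
-/

set_option autoImplicit false

open MeasureTheory Filter Topology
open scoped ENNReal ComplexConjugate

namespace Pool.Agent.N276.TT

variable {X : Type*} [MeasurableSpace X] {μ : Measure X} [IsProbabilityMeasure μ]
  {F : Ultrafilter ℕ} {f : ℕ → X → ℂ} {ψ : X → ℂ}

/-- integrals over a set of the weak limit -/
lemma WL.setLim (W : WL μ F f ψ) {E : Set X} (hEm : MeasurableSet E) :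
    Tendsto (fun i => ∫ x in E, (1 - (f i x).re) ∂μ) F (𝓝 (∫ x in E, (1 - (ψ x).re) ∂μ)) := by
  have hg : StronglyMeasurable (E.indicator fun _ : X => (1 : ℂ)) :=
    stronglyMeasurable_const.indicator hEm
  have hgb : ∀ x, ‖E.indicator (fun _ : X => (1 : ℂ)) x‖ ≤ 1 := by
    intro x
    by_cases hx : x ∈ E
    · rw [Set.indicator_of_mem hx]; simp
    · rw [Set.indicator_of_notMem hx]; simp
  have hl := W.lim _ hg hgb
  have e1 : ∀ u : X → ℂ, ∫ x, u x * E.indicator (fun _ : X => (1 : ℂ)) x ∂μ = ∫ x in E, u x ∂μ := by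
    intro u
    rw [← integral_indicator hEm]
    refine integral_congr_ae (Eventually.of_forall fun x => ?_)
    by_cases hx : x ∈ E
    · simp [hx]
    · simp [hx]
  rw [e1] at hl
  have hint : ∀ {u : X → ℂ}, StronglyMeasurable u → (∀ x, ‖u x‖ ≤ 1) → Integrable u μ :=
    fun hu hb => Integrable.of_bound hu.aestronglyMeasurable 1 (Eventually.of_forall hb)
  have e2 : ∀ {u : X → ℂ}, StronglyMeasurable u → (∀ x, ‖u x‖ ≤ 1) →
      ∫ x in E, (1 - (u x).re) ∂μ = μ.real E - (∫ x in E, u x ∂μ).re := by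
    intro u hu hb
    have h1 : ∫ x in E, (u x).re ∂μ = (∫ x in E, u x ∂μ).re :=
      integral_re (hint hu hb).integrableOn
    have h2 : Integrable (fun x => (u x).re) (μ.restrict E) := (hint hu hb).integrableOn.re
    rw [integral_sub (integrable_const _) h2, h1]
    simp
  rw [e2 W.mψ W.bψ]
  have h3 := ((Complex.continuous_re.tendsto _).comp hl).const_sub (μ.real E)
  refine h3.congr fun i => ?_
  simp only [Function.comp]
  rw [e1, e2 (W.mf i) (W.bf i)]

omit [IsProbabilityMeasure μ] in
lemma WL.re_le (W : WL μ F f ψ) (x : X) : (ψ x).re ≤ 1 := (Complex.re_le_norm _).trans (W.bψ x)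

/-- the functions tend to one on the set where the weak limit is one -/
lemma WL.strong (W : WL μ F f ψ) {E : Set X} (hEm : MeasurableSet E) (hE : ∀ x ∈ E, ψ x = 1) :
    Tendsto (fun i => ∫ x in E, (1 - (f i x).re) ∂μ) F (𝓝 0) := by
  have h := W.setLim hEm
  have e : ∫ x in E, (1 - (ψ x).re) ∂μ = 0 := by
    have : ∫ x in E, (1 - (ψ x).re) ∂μ = ∫ x in E, (0 : ℝ) ∂μ :=
      setIntegral_congr_fun hEm fun x hx => by simp [hE x hx]
    rw [this]; simp
  rwa [e] at h

/-- conversely the weak limit is one on the sets on which the functions tend to one -/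
lemma WL.eq_one (W : WL μ F f ψ) {E : Set X} (hEm : MeasurableSet E)
    (h : Tendsto (fun i => ∫ x in E, (1 - (f i x).re) ∂μ) F (𝓝 0)) :
    ∀ᵐ x ∂μ, x ∈ E → ψ x = 1 := by
  have h1 := tendsto_nhds_unique (W.setLim hEm) h
  have hi : Integrable ψ μ :=
    Integrable.of_bound W.mψ.aestronglyMeasurable 1 (Eventually.of_forall W.bψ)
  have h2 : Integrable (fun x => 1 - (ψ x).re) (μ.restrict E) :=
    (integrable_const _).sub hi.integrableOn.re
  rw [integral_eq_zero_iff_of_nonneg (fun x => by
    show (0 : ℝ) ≤ 1 - (ψ x).re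
    linarith [W.re_le x]) h2] at h1
  rw [← ae_restrict_iff' hEm]
  filter_upwards [h1] with x hx
  have h3 : (ψ x).re = 1 := by
    have : 1 - (ψ x).re = 0 := hx
    linarith
  have h5 : ‖ψ x‖ ^ 2 ≤ 1 := pow_le_one₀ (norm_nonneg _) (W.bψ x)
  rw [← Complex.normSq_eq_norm_sq, Complex.normSq_apply, h3] at h5
  refine Complex.ext h3 ?_
  have := mul_self_nonneg (ψ x).im
  show (ψ x).im = 0
  exact mul_self_eq_zero.1 (by linarith)

lemma re_mul_ineq {z w : ℂ} (hz : ‖z‖ = 1) (hw : ‖w‖ = 1) :
    1 - (z * w).re ≤ 2 * (1 - z.re) + 2 * (1 - w.re) := by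
  have h1 : z.re ^ 2 + z.im ^ 2 = 1 := by
    have : ‖z‖ ^ 2 = 1 := by rw [hz]; norm_num
    rw [← Complex.normSq_eq_norm_sq, Complex.normSq_apply] at this
    linarith
  have h2 : w.re ^ 2 + w.im ^ 2 = 1 := by
    have : ‖w‖ ^ 2 = 1 := by rw [hw]; norm_num
    rw [← Complex.normSq_eq_norm_sq, Complex.normSq_apply] at this
    linarith
  rw [Complex.mul_re]
  nlinarith [sq_nonneg (z.re + w.re - 2), sq_nonneg (z.im - w.im), sq_nonneg (z.im + w.im),
    sq_nonneg (z.re - w.re)]

/-- a sequence of characters and the weak limits of its powers -/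
structure Sys (μ : Measure X) (F : Ultrafilter ℕ) (f : ℤ → ℕ → X → ℂ) (ψ : ℤ → X → ℂ) : Prop where
  wl : ∀ m, WL μ F (f m) (ψ m)
  one : ∀ m i x, ‖f m i x‖ = 1
  zero : ∀ i x, f 0 i x = 1
  add : ∀ m m' i x, f (m + m') i x = f m i x * f m' i x

variable {g : ℤ → ℕ → X → ℂ} {χ : ℤ → X → ℂ}

lemma Sys.ae_zero (S : Sys μ F g χ) : ∀ᵐ x ∂μ, χ 0 x = 1 := by
  have h := (S.wl 0).eq_one (E := Set.univ) MeasurableSet.univ (by
    simp only [S.zero]
    simp)
  filter_upwards [h] with x hx using hx (Set.mem_univ x)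

lemma Sys.ae_neg (S : Sys μ F g χ) (m : ℤ) : ∀ᵐ x ∂μ, χ m x = 1 → χ (-m) x = 1 := by
  refine (S.wl (-m)).eq_one (E := {x | χ m x = 1}) (set_meas (S.wl m).mψ) ?_
  refine ((S.wl m).strong (set_meas (S.wl m).mψ) fun x hx => hx).congr fun i => ?_
  refine integral_congr_ae (Eventually.of_forall fun x => ?_)
  have h1 : g (-m) i x * g m i x = 1 := by
    rw [← S.add, neg_add_cancel, S.zero]
  have h2 : g (-m) i x = conj (g m i x) := by
    have h3 : conj (g m i x) * g m i x = 1 := by
      rw [mul_comm, Complex.mul_conj, Complex.normSq_eq_norm_sq, S.one]; norm_num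
    have h4 : g m i x ≠ 0 := by
      intro h0
      rw [h0, mul_zero] at h1
      exact zero_ne_one h1
    exact mul_right_cancel₀ h4 (h1.trans h3.symm)
  simp only [h2, Complex.conj_re]

lemma Sys.ae_add (S : Sys μ F g χ) (m m' : ℤ) :
    ∀ᵐ x ∂μ, χ m x = 1 → χ m' x = 1 → χ (m + m') x = 1 := by
  set E : Set X := {x | χ m x = 1} ∩ {x | χ m' x = 1} with hE
  have hEm : MeasurableSet E := (set_meas (S.wl m).mψ).inter (set_meas (S.wl m').mψ)
  have h1 := (S.wl m).strong hEm fun x hx => hx.1
  have h2 := (S.wl m').strong hEm fun x hx => hx.2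
  have hi : ∀ k i, Integrable (fun x => (g k i x).re) (μ.restrict E) := fun k i =>
    (Integrable.of_bound ((S.wl k).mf i).aestronglyMeasurable 1
      (Eventually.of_forall ((S.wl k).bf i))).integrableOn.re
  have h3 : Tendsto (fun i => ∫ x in E, (1 - (g (m + m') i x).re) ∂μ) F (𝓝 0) := by
    have h4 : Tendsto (fun i => 2 * (∫ x in E, (1 - (g m i x).re) ∂μ) +
        2 * ∫ x in E, (1 - (g m' i x).re) ∂μ) F (𝓝 0) := by
      have := (h1.const_mul 2).add (h2.const_mul 2)
      simpa using this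
    refine squeeze_zero (fun i => ?_) (fun i => ?_) h4
    · refine integral_nonneg fun x => ?_
      show (0 : ℝ) ≤ 1 - (g (m + m') i x).re
      have := (Complex.re_le_norm (g (m + m') i x)).trans ((S.wl (m + m')).bf i x)
      linarith
    · rw [← integral_const_mul, ← integral_const_mul, ← integral_add]
      · refine integral_mono ((integrable_const _).sub (hi _ i)) ?_ fun x => ?_
        · exact (((integrable_const _).sub (hi _ i)).const_mul _).add
            (((integrable_const _).sub (hi _ i)).const_mul _)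
        · show 1 - (g (m + m') i x).re ≤ 2 * (1 - (g m i x).re) + 2 * (1 - (g m' i x).re)
          rw [S.add]
          exact re_mul_ineq (S.one m i x) (S.one m' i x)
      · exact ((integrable_const _).sub (hi _ i)).const_mul _
      · exact ((integrable_const _).sub (hi _ i)).const_mul _
  filter_upwards [(S.wl (m + m')).eq_one hEm h3] with x hx h5 h6 using hx ⟨h5, h6⟩

/-- the exponents whose limit is one at `x` form a group, so they are the multiples of a number -/
lemma Sys.ae_group (S : Sys μ F g χ) :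
    ∀ᵐ x ∂μ, ∃ d : ℕ, ∀ m : ℤ, χ m x = 1 ↔ (d : ℤ) ∣ m := by
  filter_upwards [S.ae_zero, ae_all_iff.2 S.ae_neg, ae_all_iff.2 fun m => ae_all_iff.2 (S.ae_add m)]
    with x h0 hn ha
  let H : AddSubgroup ℤ :=
    { carrier := {m | χ m x = 1}
      add_mem' := fun {a b} h1 h2 => ha a b h1 h2
      zero_mem' := h0
      neg_mem' := fun {a} h => hn a h }
  obtain ⟨a, ha'⟩ := Int.subgroup_cyclic H
  refine ⟨a.natAbs, fun m => ?_⟩
  have h1 : m ∈ H ↔ a ∣ m := by
    rw [ha', ← AddSubgroup.zmultiples_eq_closure, Int.mem_zmultiples_iff]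
  rw [Int.natAbs_dvd, ← h1]
  rfl

/-- **Mixtures.**  The measures of the sets where the limits are one. -/
theorem Sys.mixture (S : Sys μ F g χ) :
    ∃ w : ℕ → ℝ, (∀ d, 0 ≤ w d) ∧
      ∀ m : ℤ, HasSum (fun d : ℕ => if (d : ℤ) ∣ m then w d else 0) (μ.real {x | χ m x = 1}) := by
  classical
  set A : ℕ → Set X := fun d => {x | ∀ m : ℤ, χ m x = 1 ↔ (d : ℤ) ∣ m} with hA
  have hAm : ∀ d, MeasurableSet (A d) := by
    intro d
    have : A d = ⋂ m : ℤ, {x | χ m x = 1 ↔ (d : ℤ) ∣ m} := by
      ext x; simp [hA]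
    rw [this]
    refine MeasurableSet.iInter fun m => ?_
    by_cases hd : (d : ℤ) ∣ m
    · simp only [hd, iff_true]
      exact set_meas (S.wl m).mψ
    · simp only [hd, iff_false]
      exact (set_meas (S.wl m).mψ).compl
  have hdisj : Pairwise (Function.onFun Disjoint A) := by
    intro d e hde
    rw [Function.onFun, Set.disjoint_left]
    intro x hx hx'
    apply hde
    have h1 : (d : ℤ) ∣ (e : ℤ) := (hx e).1 ((hx' e).2 dvd_rfl)
    have h2 : (e : ℤ) ∣ (d : ℤ) := (hx' d).1 ((hx d).2 dvd_rfl)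
    exact Nat.dvd_antisymm (by exact_mod_cast h1) (by exact_mod_cast h2)
  refine ⟨fun d => μ.real (A d), fun d => measureReal_nonneg, fun m => ?_⟩
  -- the set where the limit is one is the union of the `A d` with `d ∣ m`
  set B : ℕ → Set X := fun d => if (d : ℤ) ∣ m then A d else ∅ with hB
  have hBm : ∀ d, MeasurableSet (B d) := by
    intro d
    simp only [hB]
    split_ifs
    · exact hAm d
    · exact MeasurableSet.empty
  have hBsub : ∀ d, B d ⊆ A d := by
    intro d
    simp only [hB]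
    split_ifs
    · exact subset_rfl
    · exact Set.empty_subset _
  have hBd : Pairwise (Function.onFun Disjoint B) := fun d e hde =>
    (hdisj hde).mono (hBsub d) (hBsub e)
  have h1 : μ {x | χ m x = 1} = μ (⋃ d, B d) := by
    refine measure_congr ?_
    filter_upwards [S.ae_group] with x hx
    obtain ⟨d, hd⟩ := hx
    apply propext
    constructor
    · intro h
      have h' : χ m x = 1 := h
      refine Set.mem_iUnion.2 ⟨d, ?_⟩
      simp only [hB]
      rw [if_pos ((hd m).1 h')]
      exact hd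
    · intro h
      obtain ⟨e, he⟩ := Set.mem_iUnion.1 h
      by_cases h2 : (e : ℤ) ∣ m
      · simp only [hB] at he
        rw [if_pos h2] at he
        exact (he m).2 h2
      · simp only [hB] at he
        rw [if_neg h2] at he
        exact absurd he (Set.notMem_empty x)
  rw [measureReal_def, h1, measure_iUnion hBd hBm]
  have h2 : ∀ d, μ (B d) ≠ ∞ := fun d => measure_ne_top μ _
  have h3 : ∑' d, μ (B d) ≠ ∞ := by
    rw [← measure_iUnion hBd hBm]
    exact measure_ne_top μ _
  have h4 := ENNReal.hasSum_toReal h3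
  rw [ENNReal.tsum_toReal_eq h2]
  have h5 : (fun d => (μ (B d)).toReal) = fun d : ℕ => if (d : ℤ) ∣ m then μ.real (A d) else 0 := by
    funext d
    simp only [hB]
    split_ifs
    · rfl
    · simp
  rw [h5] at h4 ⊢
  exact h4

end Pool.Agent.N276.TT
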