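import Pool.Agent.N276.TT.Three

/-!
Weak limits of unimodular functions all of whose finite products reproduce one number.
-/

set_option autoImplicit false

open MeasureTheory Filter Topology
open scoped ENNReal ComplexConjugate

namespace Pool.Agent.N276.TT

variable {X : Type*} [MeasurableSpace X] {μ : Measure X} [IsProbabilityMeasure μ]
  {F : Ultrafilter ℕ} {f : ℕ → X → ℂ} {ψ : X → ℂ}

lemma norm_pow_le_one {a : ℂ} (ha : ‖a‖ ≤ 1) (r : ℕ) : ‖a ^ r‖ ≤ 1 := by
  rw [norm_pow]
  exact pow_le_one₀ (norm_nonneg _) ha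

lemma norm_prod_le_one {B : Finset ℕ} {a : ℕ → ℂ} (ha : ∀ i, ‖a i‖ ≤ 1) : ‖∏ i ∈ B, a i‖ ≤ 1 := by
  rw [norm_prod]
  exact Finset.prod_le_one (fun _ _ => norm_nonneg _) fun i _ => ha i

omit [IsProbabilityMeasure μ] in
/-- all the moments -/
lemma WL.pow (W : WL μ F f ψ) (hF : (F : Filter ℕ) ≤ atTop) {c : ℂ} {r : ℕ}
    (h : ∀ ε : ℝ, 0 < ε → ∃ N : ℕ, ∀ B : Finset ℕ, B.card = r → (∀ i ∈ B, N ≤ i) →
      ‖(∫ x, ∏ i ∈ B, f i x ∂μ) - c‖ ≤ ε) : ∫ x, ψ x ^ r ∂μ = c := by
  refine eq_of_forall fun ε hε => ?_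
  obtain ⟨N, hN⟩ := h ε hε
  have key : ∀ s : ℕ, ∀ B : Finset ℕ, B.card + s = r → (∀ i ∈ B, N ≤ i) →
      ‖(∫ x, (∏ i ∈ B, f i x) * ψ x ^ s ∂μ) - c‖ ≤ ε := by
    intro s
    induction s with
    | zero =>
      intro B hB hBN
      simpa using hN B (by omega) hBN
    | succ s ih =>
      intro B hB hBN
      have hm : StronglyMeasurable fun x => (∏ i ∈ B, f i x) * ψ x ^ s := by
        refine StronglyMeasurable.mul ?_ (W.mψ.pow s)
        exact Finset.stronglyMeasurable_fun_prod _ fun i _ => W.mf i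
      have hb : ∀ x, ‖(∏ i ∈ B, f i x) * ψ x ^ s‖ ≤ 1 := fun x =>
        norm_mul_le_one (norm_prod_le_one fun i => W.bf i x) (norm_pow_le_one (W.bψ x) s)
      have h1 := W.lim _ hm hb
      have e : ∫ x, ψ x * ((∏ i ∈ B, f i x) * ψ x ^ s) ∂μ =
          ∫ x, (∏ i ∈ B, f i x) * ψ x ^ (s + 1) ∂μ := by
        refine integral_congr_ae (Eventually.of_forall fun x => ?_)
        simp only
        ring
      rw [e] at h1
      refine lim_le hF h1 ?_
      filter_upwards [eventually_ge_atTop (N + B.sup id + 1)] with j hj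
      have hjB : j ∉ B := by
        intro hjB
        have := Finset.le_sup (f := id) hjB
        simp only [id] at this
        omega
      have h2 := ih (insert j B) (by rw [Finset.card_insert_of_notMem hjB]; omega) (by
        intro i hi
        rcases Finset.mem_insert.1 hi with rfl | hi
        · omega
        · exact hBN i hi)
      have e2 : ∫ x, (∏ i ∈ insert j B, f i x) * ψ x ^ s ∂μ =
          ∫ x, f j x * ((∏ i ∈ B, f i x) * ψ x ^ s) ∂μ := by
        refine integral_congr_ae (Eventually.of_forall fun x => ?_)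
        simp only
        rw [Finset.prod_insert hjB, mul_assoc]
      rwa [e2] at h2
  simpa using key r ∅ (by simp) (by simp)

/-- if all the moments agree they are the measure of the set where the limit is one -/
lemma all_moments (hm : StronglyMeasurable ψ) (hb : ∀ x, ‖ψ x‖ ≤ 1) {c : ℂ}
    (h : ∀ r : ℕ, 0 < r → ∫ x, ψ x ^ r ∂μ = c) : c = (μ.real {x | ψ x = 1} : ℂ) := by
  have hi : ∀ r, Integrable (fun x => ψ x ^ r) μ := fun r =>
    Integrable.of_bound (hm.pow r).aestronglyMeasurable 1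
      (Eventually.of_forall fun x => norm_pow_le_one (hb x) r)
  -- the integrals of the powers of `(1 + ψ) / 2`
  have h1 : ∀ L : ℕ, ∫ x, ((1 + ψ x) / 2) ^ L ∂μ = (1 - c) * (1 / 2 : ℂ) ^ L + c := by
    intro L
    have e : ∀ x, ((1 + ψ x) / 2) ^ L = ∑ k ∈ Finset.range (L + 1), ψ x ^ k * (L.choose k / 2 ^ L) := by
      intro x
      rw [div_pow, add_comm, add_pow, Finset.sum_div]
      refine Finset.sum_congr rfl fun k _ => ?_
      rw [one_pow, mul_one, mul_div_assoc]
    simp_rw [e]
    rw [integral_finsetSum _ fun k _ => (hi k).mul_const _]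
    simp_rw [integral_mul_const]
    rw [Finset.sum_range_succ']
    have e2 : ∀ k ∈ Finset.range L, (∫ x, ψ x ^ (k + 1) ∂μ) * ((L.choose (k + 1) : ℂ) / 2 ^ L) =
        c / 2 ^ L * (L.choose (k + 1) : ℂ) := by
      intro k _
      rw [h (k + 1) (Nat.succ_pos k)]
      ring
    rw [Finset.sum_congr rfl e2, ← Finset.mul_sum]
    have e3 : ∑ k ∈ Finset.range L, (L.choose (k + 1) : ℂ) = 2 ^ L - 1 := by
      have h3 := Nat.sum_range_choose L
      rw [Finset.sum_range_succ'] at h3
      have h4 : ((∑ k ∈ Finset.range L, L.choose (k + 1) + L.choose 0 : ℕ) : ℂ) = ((2 ^ L : ℕ) : ℂ) := by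
        rw [h3]
      push_cast at h4
      rw [Nat.choose_zero_right, Nat.cast_one] at h4
      linear_combination h4
    rw [e3]
    simp only [pow_zero, integral_const, probReal_univ, one_smul, Nat.choose_zero_right, Nat.cast_one]
    rw [div_pow, one_pow]
    field_simp
    ring
  have h2 : Tendsto (fun L : ℕ => ∫ x, ((1 + ψ x) / 2) ^ L ∂μ) atTop (𝓝 c) := by
    have h3 : Tendsto (fun L : ℕ => (1 / 2 : ℂ) ^ L) atTop (𝓝 0) :=
      tendsto_pow_atTop_nhds_zero_of_norm_lt_one (by norm_num)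
    have h4 := (h3.const_mul (1 - c)).add_const c
    rw [mul_zero, zero_add] at h4
    exact h4.congr fun L => (h1 L).symm
  have h3 : Tendsto (fun L : ℕ => ∫ x, ((1 + ψ x) / 2) ^ L ∂μ) atTop
      (𝓝 (∫ x, ({x | ψ x = 1} : Set X).indicator (fun _ => (1 : ℂ)) x ∂μ)) := by
    have hle : ∀ x, ‖(1 + ψ x) / 2‖ ≤ 1 := by
      intro x
      rw [norm_div, Complex.norm_ofNat, div_le_one (by norm_num)]
      calc ‖1 + ψ x‖ ≤ ‖(1 : ℂ)‖ + ‖ψ x‖ := norm_add_le _ _
        _ ≤ 2 := by rw [norm_one]; linarith [hb x]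
    refine tendsto_integral_of_dominated_convergence (fun _ => (1 : ℝ)) (fun L => ?_)
      (integrable_const _) (fun L => Eventually.of_forall fun x => norm_pow_le_one (hle x) L)
      (Eventually.of_forall fun x => ?_)
    · exact (((stronglyMeasurable_const.add hm).div stronglyMeasurable_const).pow L).aestronglyMeasurable
    · by_cases hx : ψ x = 1
      · rw [Set.indicator_of_mem (by exact hx), hx]
        norm_num
      · rw [Set.indicator_of_notMem (by exact hx)]
        refine tendsto_pow_atTop_nhds_zero_of_norm_lt_one (lt_of_le_of_ne (hle x) fun h5 => hx ?_)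
        -- `|1 + ψ| = 2` and `|ψ| ≤ 1` force `ψ = 1`
        rw [norm_div, Complex.norm_ofNat, div_eq_one_iff_eq (by norm_num)] at h5
        have h6 : ‖1 + ψ x‖ ^ 2 = 4 := by rw [h5]; norm_num
        have h7 : ‖ψ x‖ ^ 2 ≤ 1 := pow_le_one₀ (norm_nonneg _) (hb x)
        rw [← Complex.normSq_eq_norm_sq, Complex.normSq_apply] at h6 h7
        simp only [Complex.add_re, Complex.one_re, Complex.add_im, Complex.one_im, zero_add] at h6
        have h8 : (ψ x).re ≤ 1 := (Complex.re_le_norm _).trans (hb x)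
        have h9 : (ψ x).re = 1 := by nlinarith
        refine Complex.ext h9 ?_
        show (ψ x).im = 0
        rw [h9] at h7
        have := mul_self_nonneg (ψ x).im
        exact mul_self_eq_zero.1 (by linarith)
  rw [tendsto_nhds_unique h2 h3, integral_indicator (set_meas hm)]
  simp

end Pool.Agent.N276.TT
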