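import Pool.Agent.N276.TT.Weak

/-!
Weak limits of unimodular functions whose products of two or three reproduce one number.
-/

set_option autoImplicit false

open MeasureTheory Filter Topology
open scoped ENNReal ComplexConjugate

namespace Pool.Agent.N276.TT

variable {X : Type*} [MeasurableSpace X] {μ : Measure X} [IsProbabilityMeasure μ]

/-- passing to the limit along an ultrafilter in an inequality valid eventually -/
lemma lim_le {F : Ultrafilter ℕ} (hF : (F : Filter ℕ) ≤ atTop) {a : ℕ → ℂ} {b c : ℂ} {ε : ℝ}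
    (h : Tendsto a F (𝓝 b)) (hev : ∀ᶠ i in atTop, ‖a i - c‖ ≤ ε) : ‖b - c‖ ≤ ε :=
  le_of_tendsto (h.sub_const c).norm (hF hev)

lemma eq_of_forall {b c : ℂ} (h : ∀ ε : ℝ, 0 < ε → ‖b - c‖ ≤ ε) : b = c := by
  have : ‖b - c‖ ≤ 0 := le_of_forall_pos_le_add fun ε hε => by simpa using h ε hε
  exact sub_eq_zero.1 (norm_le_zero_iff.1 this)

/-- the data of a weak limit -/
structure WL (μ : Measure X) (F : Ultrafilter ℕ) (f : ℕ → X → ℂ) (ψ : X → ℂ) : Prop where
  mf : ∀ i, StronglyMeasurable (f i)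
  bf : ∀ i x, ‖f i x‖ ≤ 1
  mψ : StronglyMeasurable ψ
  bψ : ∀ x, ‖ψ x‖ ≤ 1
  lim : ∀ g : X → ℂ, StronglyMeasurable g → (∀ x, ‖g x‖ ≤ 1) →
    Tendsto (fun i => ∫ x, f i x * g x ∂μ) F (𝓝 (∫ x, ψ x * g x ∂μ))

variable {F : Ultrafilter ℕ} {f : ℕ → X → ℂ} {ψ : X → ℂ}

omit [IsProbabilityMeasure μ] in
lemma WL.lim' (W : WL μ F f ψ) {g : X → ℂ} (hg : StronglyMeasurable g) (hb : ∀ x, ‖g x‖ ≤ 1) :
    Tendsto (fun i => ∫ x, g x * conj (f i x) ∂μ) F (𝓝 (∫ x, g x * conj (ψ x) ∂μ)) := by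
  have h1 := W.lim (fun x => conj (g x)) (Complex.continuous_conj.comp_stronglyMeasurable hg)
    (fun x => by rw [RCLike.norm_conj]; exact hb x)
  have h2 := (Complex.continuous_conj.tendsto _).comp h1
  have e : ∀ u : X → ℂ, conj (∫ x, u x * conj (g x) ∂μ) = ∫ x, g x * conj (u x) ∂μ := by
    intro u
    rw [← integral_conj]
    refine integral_congr_ae (Eventually.of_forall fun x => ?_)
    simp [mul_comm]
  rw [e] at h2
  exact h2.congr fun i => e (f i)

lemma norm_mul_le_one {a b : ℂ} (ha : ‖a‖ ≤ 1) (hb : ‖b‖ ≤ 1) : ‖a * b‖ ≤ 1 := by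
  rw [norm_mul]
  exact mul_le_one₀ ha (norm_nonneg _) hb

lemma norm_conj_le_one {a : ℂ} (ha : ‖a‖ ≤ 1) : ‖conj a‖ ≤ 1 := by
  rw [RCLike.norm_conj]; exact ha

lemma sm_conj {g : X → ℂ} (hg : StronglyMeasurable g) : StronglyMeasurable fun x => conj (g x) :=
  Complex.continuous_conj.comp_stronglyMeasurable hg

omit [IsProbabilityMeasure μ] in
/-- the first moment -/
lemma WL.one (W : WL μ F f ψ) (hF : (F : Filter ℕ) ≤ atTop) {c : ℂ}
    (h : ∀ ε : ℝ, 0 < ε → ∀ᶠ i in atTop, ‖(∫ x, f i x ∂μ) - c‖ ≤ ε) : ∫ x, ψ x ∂μ = c := by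
  refine eq_of_forall fun ε hε => lim_le hF ?_ (h ε hε)
  have := W.lim (fun _ => 1) stronglyMeasurable_const (fun _ => by simp)
  simpa using this

omit [IsProbabilityMeasure μ] in
/-- the second moment -/
lemma WL.two (W : WL μ F f ψ) (hF : (F : Filter ℕ) ≤ atTop) {c : ℂ}
    (h : ∀ ε : ℝ, 0 < ε → ∀ᶠ j in atTop, ∀ᶠ i in atTop,
      ‖(∫ x, f i x * conj (f j x) ∂μ) - c‖ ≤ ε) : ∫ x, ψ x * conj (ψ x) ∂μ = c := by
  refine eq_of_forall fun ε hε => lim_le hF (W.lim' W.mψ W.bψ) ?_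
  filter_upwards [h ε hε] with j hj
  exact lim_le hF (W.lim _ (sm_conj (W.mf j)) fun x => norm_conj_le_one (W.bf j x)) hj

omit [IsProbabilityMeasure μ] in
/-- the third moment -/
lemma WL.three (W : WL μ F f ψ) (hF : (F : Filter ℕ) ≤ atTop) {c : ℂ}
    (h : ∀ ε : ℝ, 0 < ε → ∀ᶠ k in atTop, ∀ᶠ j in atTop, ∀ᶠ i in atTop,
      ‖(∫ x, f i x * (f j x * conj (f k x)) ∂μ) - c‖ ≤ ε) :
    ∫ x, ψ x * ψ x * conj (ψ x) ∂μ = c := by
  refine eq_of_forall fun ε hε => lim_le hF (W.lim' (W.mψ.mul W.mψ)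
    fun x => norm_mul_le_one (W.bψ x) (W.bψ x)) ?_
  filter_upwards [h ε hε] with k hk
  have h1 : Tendsto (fun j => ∫ x, ψ x * (f j x * conj (f k x)) ∂μ) F
      (𝓝 (∫ x, (ψ * ψ) x * conj (f k x) ∂μ)) := by
    have h2 := W.lim (fun x => ψ x * conj (f k x)) (W.mψ.mul (sm_conj (W.mf k)))
      (fun x => norm_mul_le_one (W.bψ x) (norm_conj_le_one (W.bf k x)))
    have e : ∫ x, ψ x * (ψ x * conj (f k x)) ∂μ = ∫ x, (ψ * ψ) x * conj (f k x) ∂μ := by
      refine integral_congr_ae (Eventually.of_forall fun x => ?_)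
      simp [mul_assoc]
    rw [e] at h2
    refine h2.congr fun j => ?_
    refine integral_congr_ae (Eventually.of_forall fun x => ?_)
    simp only
    ring
  refine lim_le hF h1 ?_
  filter_upwards [hk] with j hj
  exact lim_le hF (W.lim _ ((W.mf j).mul (sm_conj (W.mf k)))
    fun x => norm_mul_le_one (W.bf j x) (norm_conj_le_one (W.bf k x))) hj

/-- the three moments agree: the limit is an indicator function -/
lemma zero_or_one (hm : StronglyMeasurable ψ) (hb : ∀ x, ‖ψ x‖ ≤ 1)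
    (h : ∫ x, ψ x * conj (ψ x) ∂μ = ∫ x, ψ x * ψ x * conj (ψ x) ∂μ) :
    ∀ᵐ x ∂μ, ψ x = 0 ∨ ψ x = 1 := by
  have hi1 : Integrable (fun x => ψ x * conj (ψ x)) μ :=
    Integrable.of_bound (hm.mul (sm_conj hm)).aestronglyMeasurable 1
      (Eventually.of_forall fun x => norm_mul_le_one (hb x) (norm_conj_le_one (hb x)))
  have hi2 : Integrable (fun x => ψ x * ψ x * conj (ψ x)) μ :=
    Integrable.of_bound ((hm.mul hm).mul (sm_conj hm)).aestronglyMeasurable 1
      (Eventually.of_forall fun x => norm_mul_le_one (norm_mul_le_one (hb x) (hb x))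
        (norm_conj_le_one (hb x)))
  have e : ∀ x, (ψ x * conj (ψ x) - ψ x * ψ x * conj (ψ x)).re = ‖ψ x‖ ^ 2 * (1 - (ψ x).re) := by
    intro x
    rw [show ψ x * conj (ψ x) - ψ x * ψ x * conj (ψ x) =
      (ψ x * conj (ψ x)) * (1 - ψ x) by ring, Complex.mul_conj, Complex.re_ofReal_mul,
      Complex.normSq_eq_norm_sq]
    simp
  have h1 : ∫ x, ‖ψ x‖ ^ 2 * (1 - (ψ x).re) ∂μ = 0 := by
    have h2 : ∫ x, (ψ x * conj (ψ x) - ψ x * ψ x * conj (ψ x)) ∂μ = 0 := by
      rw [integral_sub hi1 hi2, h, sub_self]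
    calc ∫ x, ‖ψ x‖ ^ 2 * (1 - (ψ x).re) ∂μ
        = ∫ x, (ψ x * conj (ψ x) - ψ x * ψ x * conj (ψ x)).re ∂μ :=
          integral_congr_ae (Eventually.of_forall fun x => (e x).symm)
      _ = (∫ x, (ψ x * conj (ψ x) - ψ x * ψ x * conj (ψ x)) ∂μ).re :=
          integral_re (hi1.sub hi2)
      _ = 0 := by rw [h2]; rfl
  have hre : ∀ x, (ψ x).re ≤ 1 := fun x => (Complex.re_le_norm _).trans (hb x)
  have h0 : ∀ x, 0 ≤ ‖ψ x‖ ^ 2 * (1 - (ψ x).re) := fun x =>
    mul_nonneg (sq_nonneg _) (by linarith [hre x])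
  rw [integral_eq_zero_iff_of_nonneg h0] at h1
  · filter_upwards [h1] with x hx
    have hx' : ‖ψ x‖ ^ 2 * (1 - (ψ x).re) = 0 := hx
    rcases mul_eq_zero.1 hx' with h3 | h3
    · left
      exact norm_eq_zero.1 (pow_eq_zero_iff (two_ne_zero) |>.1 h3)
    · right
      have h4 : (ψ x).re = 1 := by linarith
      have h5 : ‖ψ x‖ ^ 2 ≤ 1 := pow_le_one₀ (norm_nonneg _) (hb x)
      rw [← Complex.normSq_eq_norm_sq, Complex.normSq_apply, h4] at h5
      refine Complex.ext h4 ?_
      have : (ψ x).im * (ψ x).im ≤ 0 := by linarith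
      have := mul_self_nonneg (ψ x).im
      show (ψ x).im = 0
      exact mul_self_eq_zero.1 (by linarith)
  · have h5 := (hi1.sub hi2).re
    refine h5.congr (Eventually.of_forall fun x => ?_)
    exact e x

lemma set_meas (hm : StronglyMeasurable ψ) : MeasurableSet {x | ψ x = 1} :=
  hm.measurable (measurableSet_singleton 1)

omit [IsProbabilityMeasure μ] in
/-- the common value is the measure of the set where the limit is one -/
lemma moment_eq (hm : StronglyMeasurable ψ) (h : ∀ᵐ x ∂μ, ψ x = 0 ∨ ψ x = 1) :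
    ∫ x, ψ x ∂μ = (μ.real {x | ψ x = 1} : ℂ) := by
  have e : ∫ x, ψ x ∂μ = ∫ x, ({x | ψ x = 1} : Set X).indicator (fun _ => (1 : ℂ)) x ∂μ := by
    refine integral_congr_ae ?_
    filter_upwards [h] with x hx
    rcases hx with h0 | h0
    · rw [Set.indicator_of_notMem (by simp [h0]), h0]
    · rw [Set.indicator_of_mem (by exact h0), h0]
  rw [e, integral_indicator (set_meas hm)]
  simp

/-- on the set where the weak limit is one the functions tend to one -/
lemma WL.ge (W : WL μ F f ψ) (hu : ∀ i x, ‖f i x‖ = 1) {V : ℝ} (L : ℕ)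
    (hV : Tendsto (fun i => ∫ x, ‖(1 + f i x) / 2‖ ^ (2 * L) ∂μ) F (𝓝 V)) :
    μ.real {x | ψ x = 1} ≤ V := by
  set E : Set X := {x | ψ x = 1} with hE
  have hEm : MeasurableSet E := set_meas W.mψ
  have hif : ∀ i, Integrable (f i) μ := fun i =>
    Integrable.of_bound (W.mf i).aestronglyMeasurable 1 (Eventually.of_forall (W.bf i))
  -- the lower bound
  have hlow : ∀ i, μ.real E - (L / 2 : ℝ) * (μ.real E - (∫ x in E, f i x ∂μ).re) ≤
      ∫ x, ‖(1 + f i x) / 2‖ ^ (2 * L) ∂μ := by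
    intro i
    have hre : ∫ x in E, (f i x).re ∂μ = (∫ x in E, f i x ∂μ).re :=
      integral_re (hif i).integrableOn
    have hir : Integrable (fun x => (f i x).re) (μ.restrict E) := (hif i).integrableOn.re
    have h1 : ∫ x in E, (1 - (L / 2 : ℝ) * (1 - (f i x).re)) ∂μ =
        μ.real E - (L / 2 : ℝ) * (μ.real E - (∫ x in E, f i x ∂μ).re) := by
      have i1 : Integrable (fun x => (1 : ℝ) - (f i x).re) (μ.restrict E) :=
        (integrable_const _).sub hir
      have i2 : Integrable (fun x => (L / 2 : ℝ) * (1 - (f i x).re)) (μ.restrict E) :=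
        i1.const_mul _
      rw [integral_sub (integrable_const _) i2, integral_const_mul,
        integral_sub (integrable_const _) hir, hre]
      simp
    rw [← h1, ← integral_indicator hEm]
    have hmeas : StronglyMeasurable fun x => ‖(1 + f i x) / 2‖ ^ (2 * L) := by
      have : StronglyMeasurable fun x => (1 + f i x) / 2 :=
        (stronglyMeasurable_const.add (W.mf i)).div stronglyMeasurable_const
      exact this.norm.pow _
    have hle : ∀ x, ‖(1 + f i x) / 2‖ ≤ 1 := by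
      intro x
      rw [norm_div, Complex.norm_ofNat, div_le_one (by norm_num)]
      calc ‖1 + f i x‖ ≤ ‖(1 : ℂ)‖ + ‖f i x‖ := norm_add_le _ _
        _ ≤ 2 := by rw [hu, norm_one]; norm_num
    refine integral_mono ?_ ?_ fun x => ?_
    · refine Integrable.indicator ?_ hEm
      exact (integrable_const _).sub (((integrable_const _).sub (hif i).re).const_mul _)
    · refine Integrable.of_bound hmeas.aestronglyMeasurable 1 (Eventually.of_forall fun x => ?_)
      rw [Real.norm_of_nonneg (pow_nonneg (norm_nonneg _) _)]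
      exact pow_le_one₀ (norm_nonneg _) (hle x)
    · show E.indicator (fun x => 1 - (L / 2 : ℝ) * (1 - (f i x).re)) x ≤ ‖(1 + f i x) / 2‖ ^ (2 * L)
      by_cases hx : x ∈ E
      · rw [Set.indicator_of_mem hx]
        have h2 : ‖(1 + f i x) / 2‖ ^ 2 = 1 + (-((1 - (f i x).re) / 2)) := by
          have h3 : ‖f i x‖ ^ 2 = 1 := by rw [hu]; norm_num
          rw [norm_div, Complex.norm_ofNat, div_pow]
          rw [← Complex.normSq_eq_norm_sq, Complex.normSq_apply] at h3 ⊢
          simp only [Complex.add_re, Complex.one_re, Complex.add_im, Complex.one_im, zero_add]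
          nlinarith
        have h4 : -2 ≤ -((1 - (f i x).re) / 2) := by
          have h5 : |(f i x).re| ≤ 1 := (Complex.abs_re_le_norm _).trans (W.bf i x)
          have := (abs_le.1 h5).1
          linarith
        rw [pow_mul, h2]
        have h6 := one_add_mul_le_pow h4 L
        linarith
      · rw [Set.indicator_of_notMem hx]
        positivity
  -- the limit of the lower bound
  have hg : StronglyMeasurable (E.indicator fun _ : X => (1 : ℂ)) :=
    stronglyMeasurable_const.indicator hEm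
  have hgb : ∀ x, ‖E.indicator (fun _ : X => (1 : ℂ)) x‖ ≤ 1 := by
    intro x
    by_cases hx : x ∈ E
    · rw [Set.indicator_of_mem hx]; simp
    · rw [Set.indicator_of_notMem hx]; simp
  have hl := W.lim _ hg hgb
  have e1 : ∀ u : X → ℂ, ∫ x, u x * E.indicator (fun _ : X => (1 : ℂ)) x ∂μ = ∫ x in E, u x ∂μ := by
    intro u
    rw [← integral_indicator hEm]
    refine integral_congr_ae (Eventually.of_forall fun x => ?_)
    by_cases hx : x ∈ E
    · simp [hx]
    · simp [hx]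
  have e2 : ∫ x in E, ψ x ∂μ = (μ.real E : ℂ) := by
    have : ∫ x in E, ψ x ∂μ = ∫ x in E, (1 : ℂ) ∂μ :=
      setIntegral_congr_fun hEm fun x hx => hx
    rw [this]
    simp
  rw [e1, e2] at hl
  have hl2 : Tendsto (fun i => (∫ x in E, f i x ∂μ).re) F (𝓝 (μ.real E)) := by
    have := (Complex.continuous_re.tendsto _).comp hl
    simp only [Complex.ofReal_re] at this
    refine this.congr fun i => ?_
    simp only [Function.comp]
    rw [e1]
  have hl3 : Tendsto (fun i => μ.real E - (L / 2 : ℝ) * (μ.real E - (∫ x in E, f i x ∂μ).re)) F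
      (𝓝 (μ.real E - (L / 2 : ℝ) * (μ.real E - μ.real E))) :=
    ((hl2.const_sub _).const_mul _).const_sub _
  rw [sub_self, mul_zero, sub_zero] at hl3
  exact le_of_tendsto_of_tendsto' hl3 hV hlow

end Pool.Agent.N276.TT
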