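import Pool.Agent.N276.TT.Circle
import Pool.Agent.TH463.UQ.Trace

/-!
Tracial states of the group algebra of `ℤ² ⋉ ℤ[1/6]` which are reproduced by combinations of a
sequence of integers.
-/

set_option autoImplicit false

open MeasureTheory Filter Topology
open scoped ComplexOrder

namespace Pool.Agent.N276.TT

open Pool.Agent.W763.Tr
open Pool.Agent.TH654.FC
open Pool.Agent.Results.MP_96e181_an.FiniteSums (hc norm_fourier hc_eq_one hc_eq_one_iff)

section

variable {G : Subgroup (Equiv.Perm ℚ)} {τ : ℤ → G} {φ : G → ℂ} {S6 : G} {μ : Measure UnitAddCircle}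

/-- the kernel of an extreme trace whose measure has an atom of finite order; the proof is the one of
`Pool.Agent.TH463.UQ.kernel'`, with the value of the exponent kept in the conclusion -/
lemma kernelN (D : Data G τ φ S6 μ)
    (hext : φ ∈ Set.extremePoints ℝ {ψ : G → ℂ | ψ 1 = 1 ∧ (∀ g h : G, ψ (h * g * h⁻¹) = ψ g) ∧
        ∀ (s : Finset G) (c : G → ℂ), 0 ≤ ∑ i ∈ s, ∑ j ∈ s, star (c j) * c i * ψ (j⁻¹ * i)})
    {N : ℕ} (hN : μ {x : UnitAddCircle | N • x = 0} ≠ 0) :
    ∀ n : ℤ, φ (τ (N * n)) = 1 := by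
  have := D.prob
  set lam : ℝ := μ.real {x : UnitAddCircle | N • x = 0} with hlam
  have hpos : 0 < lam := by
    rw [hlam, Measure.real, ENNReal.toReal_pos_iff]
    exact ⟨pos_iff_ne_zero.mpr hN, measure_lt_top _ _⟩
  have hm : MeasurableSet {x : UnitAddCircle | N • x = 0} :=
    (isClosed_eq (by fun_prop) continuous_const).measurableSet
  have hnorm := D.normal N
  have key := extreme_kernel φ hext (transl G N) lam hpos (by
    intro ι t w b hb hw0 hw1
    -- common denominator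
    have hch : ∀ i : ι, ∃ (n : ℤ) (k : ℕ), i ∈ t → ∀ x, (b i : Equiv.Perm ℚ) x = x + N * (n / 6 ^ k) := by
      intro i
      by_cases hi : i ∈ t
      · obtain ⟨r, ⟨n, k, rfl⟩, h⟩ := hb i hi
        exact ⟨n, k, fun _ => h⟩
      · exact ⟨0, 0, fun h => absurd h hi⟩
    choose n0 k0 hn0 using hch
    set K := t.sup k0 with hK
    set n : ι → ℤ := fun i => n0 i * 6 ^ (K - k0 i) with hn
    have hbt : ∀ i ∈ t, ∀ x, (b i : Equiv.Perm ℚ) x = x + N * (n i / 6 ^ K) := by
      intro i hi x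
      rw [hn0 i hi x, hn]
      have hle : k0 i ≤ K := Finset.le_sup hi
      have e : (6 : ℚ) ^ K = 6 ^ (K - k0 i) * 6 ^ k0 i := by rw [← pow_add]; congr 1; omega
      have h6 : (6 : ℚ) ^ (K - k0 i) ≠ 0 := by positivity
      have h6' : (6 : ℚ) ^ (k0 i) ≠ 0 := by positivity
      push_cast
      rw [e]
      field_simp
    have hval : ∀ i ∈ t, ∀ j ∈ t, φ ((b j)⁻¹ * b i) = ∫ x, fourier (N * (n i - n j)) x ∂μ := by
      intro i hi j hj
      rw [D.hμ]
      refine phi_trans D.hτ D.hcl S6 D.hS6 _ _ K fun x => ?_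
      rw [Subgroup.coe_mul, Equiv.Perm.mul_apply, Subgroup.coe_inv, Equiv.Perm.inv_eq_iff_eq,
        hbt i hi, hbt j hj]
      push_cast
      field_simp
      ring
    set F : UnitAddCircle → ℂ := fun x => ∑ i ∈ t, (w i : ℂ) * fourier (N * n i) x with hF
    have hFc : Continuous F := by rw [hF]; fun_prop
    have hsq : ∀ x, ((‖F x‖ ^ 2 : ℝ) : ℂ) =
        ∑ i ∈ t, ∑ j ∈ t, (w j : ℂ) * w i * fourier (N * (n i - n j)) x := by
      intro x
      have e1 : ((‖F x‖ ^ 2 : ℝ) : ℂ) = F x * starRingEnd ℂ (F x) := by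
        rw [Complex.mul_conj, Complex.normSq_eq_norm_sq]
      rw [e1, hF]
      simp only
      rw [map_sum, Finset.sum_mul]
      refine Finset.sum_congr rfl fun i _ => ?_
      rw [Finset.mul_sum]
      refine Finset.sum_congr rfl fun j _ => ?_
      rw [map_mul, Complex.conj_ofReal, ← fourier_neg]
      have e2 : fourier (N * (n i - n j)) x = fourier (N * n i) x * fourier (-(N * n j)) x := by
        rw [← fourier_add]; congr 1; ring_nf
      rw [e2]; ring
    have hsum : ∑ i ∈ t, ∑ j ∈ t, (w j : ℂ) * w i * φ ((b j)⁻¹ * b i) =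
        ∫ x, ((‖F x‖ ^ 2 : ℝ) : ℂ) ∂μ := by
      simp only [hsq]
      have hi : ∀ m : ℤ, Integrable (fun x : UnitAddCircle => (fourier m x : ℂ)) μ := fun m =>
        (by fun_prop : Continuous (fun x : UnitAddCircle =>
          (fourier m x : ℂ))).integrable_of_hasCompactSupport (HasCompactSupport.of_compactSpace _)
      rw [integral_finsetSum]
      · refine Finset.sum_congr rfl fun i hi' => ?_
        rw [integral_finsetSum]
        · refine Finset.sum_congr rfl fun j hj' => ?_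
          rw [integral_const_mul, hval i hi' j hj']
        · intro j _
          exact (hi _).const_mul _
      · intro i _
        exact integrable_finsetSum _ fun j _ => (hi _).const_mul _
    rw [hsum, integral_complex_ofReal, Complex.ofReal_re, hlam]
    have hint : Integrable (fun x => ‖F x‖ ^ 2) μ :=
      Pool.Agent.H261R2.FU.int_sq_cont (by fun_prop)
    calc μ.real {x : UnitAddCircle | N • x = 0}
        = ∫ x, ({x : UnitAddCircle | N • x = 0}.indicator (fun _ => (1 : ℝ))) x ∂μ := by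
          rw [integral_indicator hm]; simp [Measure.real]
      _ ≤ ∫ x, ‖F x‖ ^ 2 ∂μ := by
          apply integral_mono ((integrable_const (1 : ℝ)).indicator hm) hint
          intro x
          by_cases hx : x ∈ {x : UnitAddCircle | N • x = 0}
          · rw [Set.indicator_of_mem hx]
            have h7 : F x = 1 := by
              rw [hF]
              simp only
              have h8 : ∀ i, fourier (N * n i) x = (1 : ℂ) := by
                intro i
                rw [fourier_eq_one, mul_comm, mul_smul, natCast_zsmul,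
                  show N • x = 0 from hx, smul_zero]
                simp
              simp only [h8, mul_one]
              have := congrArg (fun r : ℝ => (r : ℂ)) hw1
              simpa using this
            simp only [h7, norm_one, one_pow]
            exact le_rfl
          · rw [Set.indicator_of_notMem hx]; positivity)
  refine fun n => key _ ⟨n, ⟨n, 0, by simp⟩, fun x => ?_⟩
  rw [D.hτ]; push_cast; ring


lemma ae_one (m : ℤ) [IsProbabilityMeasure μ] (h : ∫ x, (fourier m x : ℂ) ∂μ = 1) :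
    ∀ᵐ x ∂μ, (fourier m x : ℂ) = 1 := by
  have hi : Integrable (fun x : UnitAddCircle => (fourier m x : ℂ)) μ :=
    Integrable.of_bound (fourier m).continuous.aestronglyMeasurable 1
      (Eventually.of_forall fun x => (norm_fourier _ _).le)
  have hir : Integrable (fun x : UnitAddCircle => (fourier m x : ℂ).re) μ := hi.re
  have hi1 : Integrable (fun x : UnitAddCircle => 1 - (fourier m x : ℂ).re) μ :=
    (integrable_const _).sub hir
  have h1 : ∫ x, (1 - (fourier m x : ℂ).re) ∂μ = 0 := by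
    rw [integral_sub (integrable_const _) hir]
    have : ∫ x, (fourier m x : ℂ).re ∂μ = (∫ x, (fourier m x : ℂ) ∂μ).re := integral_re hi
    rw [this, h]
    simp
  rw [integral_eq_zero_iff_of_nonneg (fun x => by
    show (0 : ℝ) ≤ 1 - (fourier m x : ℂ).re
    have := (Complex.re_le_norm (fourier m x : ℂ)).trans (norm_fourier m x).le
    linarith) hi1] at h1
  filter_upwards [h1] with x hx
  have h3 : (fourier m x : ℂ).re = 1 := by
    have : 1 - (fourier m x : ℂ).re = 0 := hx
    linarith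
  have h5 : ‖(fourier m x : ℂ)‖ ^ 2 ≤ 1 := by rw [norm_fourier]; norm_num
  rw [← Complex.normSq_eq_norm_sq, Complex.normSq_apply, h3] at h5
  refine Complex.ext h3 ?_
  have := mul_self_nonneg (fourier m x : ℂ).im
  show (fourier m x : ℂ).im = 0
  exact mul_self_eq_zero.1 (by linarith)

lemma fourier_nat (k : ℕ) (x : UnitAddCircle) : (fourier (k : ℤ) x : ℂ) = (fourier 1 x : ℂ) ^ k := by
  induction k with
  | zero => simp
  | succ k ih =>
    rw [pow_succ, ← ih, ← fourier_add]
    congr 2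

/-- an extreme trace with nonnegative coefficients bounded by the masses of the kernels -/
theorem extreme_case (D : Data G τ φ S6 μ)
    (hext : φ ∈ Set.extremePoints ℝ {ψ : G → ℂ | ψ 1 = 1 ∧ (∀ g h : G, ψ (h * g * h⁻¹) = ψ g) ∧
        ∀ (s : Finset G) (c : G → ℂ), 0 ≤ ∑ i ∈ s, ∑ j ∈ s, star (c j) * c i * ψ (j⁻¹ * i)})
    (b : ℤ → ℝ) (hb0 : ∀ m, 0 ≤ b m) (hbc : ∀ m, ∫ x, (fourier m x : ℂ) ∂μ = (b m : ℂ))
    (hbk : ∀ m, b m ≤ μ.real {x | hc m x = 1}) :
    φ = Set.indicator ({1} : Set G) (fun _ => (1 : ℂ)) ∨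
      ∀ g : G, (∃ r : ℚ, ∀ x : ℚ, (g : Equiv.Perm ℚ) x = x + r) → φ g = 1 := by
  have := D.prob
  by_cases hz : ∀ n : ℤ, n ≠ 0 → φ (τ n) = 0
  · left
    funext g
    by_cases hg : g = 1
    · rw [hg, D.h1]
      simp
    · rw [eq_regular D.hτ D.h1 D.hcl D.hpd S6 D.hS6 D.hform hz g hg]
      simp [hg]
  · right
    push Not at hz
    obtain ⟨n, hn0, hn⟩ := hz
    have hbn : 0 < b n := by
      refine lt_of_le_of_ne (hb0 n) fun h => hn ?_
      rw [← D.hμ, hbc, ← h]
      simp
    set N : ℕ := n.natAbs with hN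
    have hN1 : 0 < N := Int.natAbs_pos.2 hn0
    have hker : μ {x : UnitAddCircle | N • x = 0} ≠ 0 := by
      intro h0
      have h1 : μ {x : UnitAddCircle | hc n x = 1} = 0 := by
        refine measure_mono_null (fun x hx => ?_) h0
        have h1 := hc_eq_one_iff (show hc n x = 1 from hx)
        show n.natAbs • x = 0
        rcases Int.natAbs_eq n with h | h
        · rw [h, natCast_zsmul] at h1
          exact h1
        · rw [h, neg_smul, natCast_zsmul, neg_eq_zero] at h1
          exact h1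
      have h2 := hbk n
      rw [measureReal_def, h1] at h2
      simp only [ENNReal.toReal_zero] at h2
      linarith
    have h1 := kernelN D hext hker 1
    rw [mul_one, ← D.hμ] at h1
    have h2 := ae_one (N : ℤ) h1
    have hone : μ {x : UnitAddCircle | (1 : ℕ) • x = 0} ≠ 0 := by
      intro h0
      have hi : ∀ k : ℕ, Integrable (fun x : UnitAddCircle => (fourier (k : ℤ) x : ℂ)) μ := fun k =>
        Integrable.of_bound (fourier (k : ℤ)).continuous.aestronglyMeasurable 1
          (Eventually.of_forall fun x => (norm_fourier _ _).le)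
      have h3 : ∫ x, ∑ k ∈ Finset.range N, (fourier (k : ℤ) x : ℂ) ∂μ = 0 := by
        have h4 : ∀ᵐ x ∂μ, (1 : ℕ) • x ≠ 0 := by
          rw [ae_iff]
          simpa using h0
        have h5 : ∫ x, ∑ k ∈ Finset.range N, (fourier (k : ℤ) x : ℂ) ∂μ = ∫ _x, (0 : ℂ) ∂μ := by
          refine integral_congr_ae ?_
          filter_upwards [h2, h4] with x hx1 hx2
          simp only [fourier_nat] at hx1 ⊢
          have h6 : (fourier 1 x : ℂ) ≠ 1 := by
            intro h7
            apply hx2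
            have h8 : hc 1 x = 1 := by
              unfold hc
              rw [h7]
              norm_num
            have := hc_eq_one_iff h8
            simpa using this
          rw [geom_sum_eq h6, hx1, sub_self, zero_div]
        rw [h5, integral_zero]
      rw [integral_finsetSum _ fun k _ => hi k] at h3
      simp_rw [hbc] at h3
      have h4 : ∑ k ∈ Finset.range N, b (k : ℤ) = 0 := by exact_mod_cast h3
      have h5 : b ((0 : ℕ) : ℤ) = 0 :=
        (Finset.sum_eq_zero_iff_of_nonneg fun k _ => hb0 _).1 h4 0 (Finset.mem_range.2 hN1)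
      have h6 := hbc 0
      have h7 : b 0 = 0 := by simpa using h5
      rw [h7] at h6
      simp at h6
    have h3 := kernelN D hext hone
    rintro g ⟨r, hg⟩
    obtain ⟨m, k, hr⟩ := D.six hg
    rw [hr] at hg
    rw [phi_trans D.hτ D.hcl S6 D.hS6 g m k hg]
    have := h3 m
    rwa [Nat.cast_one, one_mul] at this

end

/-- powers of the translation by one -/
lemma pow_tau {G : Subgroup (Equiv.Perm ℚ)} {τ : ℤ → G}
    (hτ : ∀ (k : ℤ) (x : ℚ), (τ k : Equiv.Perm ℚ) x = x + k) {u : G}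
    (hu : ∀ x : ℚ, (u : Equiv.Perm ℚ) x = x + 1) (m : ℤ) : u ^ m = τ m := by
  apply Subtype.ext
  apply Equiv.ext
  intro x
  rw [Pool.Agent.R481.TraceFS.zpow_apply hu, hτ, mul_one]

/-- **Main theorem.** -/
theorem main (s2 s3 t : Equiv.Perm ℚ) (hs2 : ∀ x : ℚ, s2 x = 2 * x) (hs3 : ∀ x : ℚ, s3 x = 3 * x)
    (ht : ∀ x : ℚ, t x = x + 1) (G : Subgroup (Equiv.Perm ℚ))
    (hG : G = Subgroup.closure {s2, s3, t}) (T : Set (G → ℂ))
    (hT : T = {ψ : G → ℂ | ψ 1 = 1 ∧ (∀ g h : G, ψ (h * g * h⁻¹) = ψ g) ∧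
        ∀ (s : Finset G) (c : G → ℂ), 0 ≤ ∑ i ∈ s, ∑ j ∈ s, star (c j) * c i * ψ (j⁻¹ * i)})
    (u : G) (hu : (u : Equiv.Perm ℚ) = t) (φ ψ : G → ℂ) (hφ : φ ∈ T) (hψ : ψ ∈ T) (n : ℕ → ℤ)
    (h : Three (fun m => ψ (u ^ m)) (fun m => φ (u ^ m)) n ∨
      Sums (fun m => ψ (u ^ m)) (fun m => φ (u ^ m)) n) :
    (∃ w : ℕ → ℝ, (∀ d, 0 ≤ w d) ∧
      ∀ m : ℤ, HasSum (fun d : ℕ => if (d : ℤ) ∣ m then (w d : ℂ) else 0) (φ (u ^ m))) ∧
    (φ ∈ Set.extremePoints ℝ T → φ = Set.indicator ({1} : Set G) (fun _ => (1 : ℂ)) ∨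
      ∀ g : G, (∃ r : ℚ, ∀ x : ℚ, (g : Equiv.Perm ℚ) x = x + r) → φ g = 1) := by
  subst hT
  obtain ⟨hφ1, hcl, hpd⟩ := hφ
  obtain ⟨τ, S6, ν, D⟩ := data_of hs2 hs3 ht hG hφ1 hcl hpd
  obtain ⟨hψ1, hcl', hpd'⟩ := hψ
  obtain ⟨τ', S6', μ, D'⟩ := data_of hs2 hs3 ht hG hψ1 hcl' hpd'
  have := D.prob
  have := D'.prob
  have hux : ∀ x : ℚ, (u : Equiv.Perm ℚ) x = x + 1 := fun x => by rw [hu, ht]
  have e1 : (fun m => ψ (u ^ m)) = fun m => ∫ x, (fourier m x : ℂ) ∂μ := by
    funext m
    rw [D'.hμ, pow_tau D'.hτ hux]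
  have e2 : (fun m => φ (u ^ m)) = fun m => ∫ x, (fourier m x : ℂ) ∂ν := by
    funext m
    rw [D.hμ, pow_tau D.hτ hux]
  rw [e1, e2] at h
  obtain ⟨b, hb0, hbc, hbk, w, hw0, hw⟩ := circle μ ν n h
  refine ⟨⟨w, hw0, fun m => ?_⟩, fun hext => extreme_case D hext b hb0 hbc hbk⟩
  have h1 : φ (u ^ m) = (b m : ℂ) := by
    rw [← hbc m]
    exact congrFun e2 m
  rw [h1]
  have h2 := Complex.hasSum_ofReal.2 (hw m)
  have e3 : (fun d : ℕ => (((if (d : ℤ) ∣ m then w d else 0 : ℝ)) : ℂ)) =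
      fun d : ℕ => if (d : ℤ) ∣ m then (w d : ℂ) else 0 := by
    funext d
    split_ifs <;> simp
  rwa [e3] at h2

/-- a trace which is one on the translations is conditionally finite-dimensional -/
theorem fd_of_one (s2 s3 t : Equiv.Perm ℚ) (hs2 : ∀ x : ℚ, s2 x = 2 * x) (hs3 : ∀ x : ℚ, s3 x = 3 * x)
    (ht : ∀ x : ℚ, t x = x + 1) (G : Subgroup (Equiv.Perm ℚ))
    (hG : G = Subgroup.closure {s2, s3, t}) (φ : G → ℂ) (hφ1 : φ 1 = 1)
    (hcl : ∀ g h : G, φ (h * g * h⁻¹) = φ g)
    (hpd : ∀ (s : Finset G) (c : G → ℂ), 0 ≤ ∑ i ∈ s, ∑ j ∈ s, star (c j) * c i * φ (j⁻¹ * i))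
    (h : ∀ g : G, (∃ r : ℚ, ∀ x : ℚ, (g : Equiv.Perm ℚ) x = x + r) → φ g = 1) :
    FiniteDimensional ℂ (Submodule.span ℂ {F : G → ℂ | ∃ n : G,
      (∃ r : ℚ, ∀ x : ℚ, (n : Equiv.Perm ℚ) x = x + r) ∧ F = fun x => φ (n * x)}) := by
  obtain ⟨τ, S6, ν, D⟩ := data_of hs2 hs3 ht hG hφ1 hcl hpd
  exact finite_dim D.hτ D.h1 D.hcl D.hpd S6 D.hS6 D.hform D.h2 D.h3
    ⟨1, le_rfl, fun n => h _ ⟨_, D.hτ _⟩⟩

/-- the two kinds of extreme traces of the main theorem are reproduced -/
theorem converse (t : Equiv.Perm ℚ) (ht : ∀ x : ℚ, t x = x + 1) (G : Subgroup (Equiv.Perm ℚ)) (u : G) (hu : (u : Equiv.Perm ℚ) = t) (φ : G → ℂ)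
    (h : φ = Set.indicator ({1} : Set G) (fun _ => (1 : ℂ)) ∨ ∀ m : ℤ, φ (u ^ m) = 1) :
    Three (fun m => φ (u ^ m)) (fun m => φ (u ^ m)) (fun i => 2 ^ i) ∧
      Sums (fun m => φ (u ^ m)) (fun m => φ (u ^ m)) (fun i => 2 ^ i) := by
  have hux : ∀ x : ℚ, (u : Equiv.Perm ℚ) x = x + 1 := fun x => by rw [hu, ht]
  have hu1 : ∀ m : ℤ, u ^ m = 1 ↔ m = 0 := by
    intro m
    constructor
    · intro h0
      have h1 := Pool.Agent.R481.TraceFS.zpow_apply hux m 0
      rw [h0] at h1
      simpa using h1.symm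
    · rintro rfl
      simp
  -- it is enough that the exponents are not zero
  have key : ∀ m k : ℤ, k ≠ 0 → φ (u ^ (m * k)) = φ (u ^ m) := by
    intro m k hk
    rcases h with h | h
    · by_cases hm : m = 0
      · rw [hm, zero_mul]
      · have h1 : u ^ (m * k) ≠ 1 := fun h0 => mul_ne_zero hm hk ((hu1 _).1 h0)
        have h2 : u ^ m ≠ 1 := fun h0 => hm ((hu1 _).1 h0)
        rw [h, Set.indicator_of_notMem (by simpa using h1), Set.indicator_of_notMem (by simpa using h2)]
    · rw [h, h]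
  constructor
  · intro m ε hε
    refine ⟨Eventually.of_forall fun i => ?_, ?_, ?_⟩
    · show ‖φ (u ^ (m * 2 ^ i)) - φ (u ^ m)‖ ≤ ε
      rw [key m _ (by positivity), sub_self, norm_zero]
      exact hε.le
    · refine Eventually.of_forall fun j => ?_
      filter_upwards [eventually_gt_atTop j] with i hi
      show ‖φ (u ^ (m * (2 ^ i - 2 ^ j))) - φ (u ^ m)‖ ≤ ε
      have h1 : (2 : ℤ) ^ j < 2 ^ i := pow_lt_pow_right₀ (by norm_num) hi
      rw [key m _ (by omega), sub_self, norm_zero]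
      exact hε.le
    · refine Eventually.of_forall fun k => Eventually.of_forall fun j => ?_
      filter_upwards [eventually_gt_atTop k] with i hi
      show ‖φ (u ^ (m * (2 ^ i + 2 ^ j - 2 ^ k))) - φ (u ^ m)‖ ≤ ε
      have h1 : (2 : ℤ) ^ k < 2 ^ i := pow_lt_pow_right₀ (by norm_num) hi
      have h2 : (0 : ℤ) < 2 ^ j := by positivity
      rw [key m _ (by omega), sub_self, norm_zero]
      exact hε.le
  · intro m r hr ε hε
    refine ⟨0, fun B hB _ => ?_⟩
    have h1 : 0 < ∑ i ∈ B, (2 : ℤ) ^ i := by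
      refine Finset.sum_pos (fun i _ => by positivity) ?_
      rw [← Finset.card_pos, hB]
      exact hr
    show ‖φ (u ^ (m * ∑ i ∈ B, (2 : ℤ) ^ i)) - φ (u ^ m)‖ ≤ ε
    rw [key m _ h1.ne', sub_self, norm_zero]
    exact hε.le

end Pool.Agent.N276.TT
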