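import Mathlib

/-!
Weak limits of bounded sequences of functions along an ultrafilter.
-/

set_option autoImplicit false

open MeasureTheory Filter Topology
open scoped ENNReal InnerProductSpace ComplexConjugate

namespace Pool.Agent.N276.TT

variable {X : Type*} [MeasurableSpace X] {μ : Measure X} [IsProbabilityMeasure μ]

lemma memLp_of_bound {g : X → ℂ} (hg : StronglyMeasurable g) (hb : ∀ x, ‖g x‖ ≤ 1) : MemLp g 2 μ :=
  MemLp.of_bound hg.aestronglyMeasurable 1 (Eventually.of_forall hb)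

omit [IsProbabilityMeasure μ] in
lemma inner_toLp {g h : X → ℂ} (hg : MemLp g 2 μ) (hh : MemLp h 2 μ) :
    ⟪hg.toLp g, hh.toLp h⟫_ℂ = ∫ x, h x * conj (g x) ∂μ := by
  rw [L2.inner_def]
  refine integral_congr_ae ?_
  filter_upwards [hg.coeFn_toLp, hh.coeFn_toLp] with x h1 h2
  rw [h1, h2]
  rfl

/-- a bounded sequence has a weak limit along an ultrafilter, with the same bound -/
theorem weak_limit (F : Ultrafilter ℕ) (f : ℕ → X → ℂ) (hf : ∀ i, StronglyMeasurable (f i))
    (hb : ∀ i x, ‖f i x‖ ≤ 1) :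
    ∃ ψ : X → ℂ, StronglyMeasurable ψ ∧ (∀ x, ‖ψ x‖ ≤ 1) ∧
      ∀ g : X → ℂ, StronglyMeasurable g → (∀ x, ‖g x‖ ≤ 1) →
        Tendsto (fun i => ∫ x, f i x * g x ∂μ) F (𝓝 (∫ x, ψ x * g x ∂μ)) := by
  classical
  set u : ℕ → Lp ℂ 2 μ := fun i => (memLp_of_bound (hf i) (hb i)).toLp (f i) with hu
  have hun : ∀ i, ‖u i‖ ≤ 1 := by
    intro i
    have h1 := Lp.norm_le_of_ae_bound (p := 2) (μ := μ) (f := u i) (C := 1) zero_le_one (by
      filter_upwards [(memLp_of_bound (μ := μ) (hf i) (hb i)).coeFn_toLp] with x hx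
      rw [hu]
      simp only
      rw [hx]
      exact hb i x)
    simpa [measureUnivNNReal] using h1
  -- the functionals
  set w : ℕ → WeakDual ℂ (Lp ℂ 2 μ) := fun i =>
    (InnerProductSpace.toDual ℂ (Lp ℂ 2 μ) (u i) : StrongDual ℂ (Lp ℂ 2 μ)).toWeakDual with hw
  have hcomp := WeakDual.isCompact_closedBall (𝕜 := ℂ) (E := Lp ℂ 2 μ) 0 1
  have hmem : ∀ i, w i ∈ (WeakDual.toStrongDual ⁻¹' Metric.closedBall (0 : StrongDual ℂ (Lp ℂ 2 μ)) 1) := by
    intro i
    simp only [Set.mem_preimage, Metric.mem_closedBall, dist_zero_right]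
    show ‖(InnerProductSpace.toDual ℂ (Lp ℂ 2 μ) (u i) : StrongDual ℂ (Lp ℂ 2 μ))‖ ≤ 1
    rw [LinearIsometryEquiv.norm_map]
    exact hun i
  obtain ⟨a, -, ha⟩ := hcomp.ultrafilter_le_nhds (F.map w) (by
    rw [Ultrafilter.coe_map, le_principal_iff]
    exact Filter.mem_map.2 (Filter.Eventually.of_forall hmem))
  have hlim : ∀ v : Lp ℂ 2 μ, Tendsto (fun i => ⟪u i, v⟫_ℂ) F (𝓝 (a v)) := by
    intro v
    have h1 : Tendsto w F (𝓝 a) := ha
    exact ((WeakDual.eval_continuous v).tendsto a).comp h1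
  set ψ0 : Lp ℂ 2 μ := (InnerProductSpace.toDual ℂ (Lp ℂ 2 μ)).symm (WeakDual.toStrongDual a) with hψ0
  have ha0 : ∀ v : Lp ℂ 2 μ, a v = ⟪ψ0, v⟫_ℂ := by
    intro v
    rw [hψ0, InnerProductSpace.toDual_symm_apply]
    rfl
  have hψm : StronglyMeasurable (ψ0 : X → ℂ) := Lp.stronglyMeasurable ψ0
  have hψL : MemLp (ψ0 : X → ℂ) 2 μ := Lp.memLp ψ0
  have hkey : ∀ g : X → ℂ, StronglyMeasurable g → (∀ x, ‖g x‖ ≤ 1) →
      Tendsto (fun i => ∫ x, f i x * g x ∂μ) F (𝓝 (∫ x, ψ0 x * g x ∂μ)) := by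
    intro g hg hgb
    have hcg : MemLp (fun x => conj (g x)) 2 μ := by
      refine memLp_of_bound ?_ fun x => ?_
      · exact Complex.continuous_conj.comp_stronglyMeasurable hg
      · rw [RCLike.norm_conj]; exact hgb x
    have h1 := hlim (hcg.toLp _)
    rw [ha0] at h1
    have h2 := (Complex.continuous_conj.tendsto _).comp h1
    have e1 : ∀ i, conj ⟪u i, hcg.toLp _⟫_ℂ = ∫ x, f i x * g x ∂μ := by
      intro i
      rw [inner_conj_symm, hu]
      simp only
      rw [inner_toLp]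
      refine integral_congr_ae (Eventually.of_forall fun x => ?_)
      simp
    have e2 : conj ⟪ψ0, hcg.toLp _⟫_ℂ = ∫ x, ψ0 x * g x ∂μ := by
      rw [inner_conj_symm]
      have h3 : (hψL.toLp (ψ0 : X → ℂ)) = ψ0 := Lp.toLp_coeFn ψ0 hψL
      calc ⟪hcg.toLp _, ψ0⟫_ℂ = ⟪hcg.toLp _, hψL.toLp (ψ0 : X → ℂ)⟫_ℂ := by rw [h3]
        _ = _ := by
          rw [inner_toLp]
          refine integral_congr_ae (Eventually.of_forall fun x => ?_)
          simp
    rw [e2] at h2
    refine h2.congr fun i => ?_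
    exact e1 i
  -- the bound
  set A : Set X := {x | 1 < ‖ψ0 x‖} with hA
  have hAm : MeasurableSet A := measurableSet_lt measurable_const hψm.norm.measurable
  have hψi : Integrable (ψ0 : X → ℂ) μ := hψL.integrable (by norm_num)
  have hA0 : μ A = 0 := by
    set g : X → ℂ := A.indicator fun x => conj (ψ0 x) / ‖ψ0 x‖ with hg
    have hgm : StronglyMeasurable g := by
      refine StronglyMeasurable.indicator ?_ hAm
      refine StronglyMeasurable.div ?_ ?_
      · exact Complex.continuous_conj.comp_stronglyMeasurable hψm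
      · exact Complex.continuous_ofReal.comp_stronglyMeasurable hψm.norm
    have hgb : ∀ x, ‖g x‖ ≤ A.indicator (fun _ => (1 : ℝ)) x := by
      intro x
      rw [hg]
      by_cases hx : x ∈ A
      · rw [Set.indicator_of_mem hx, Set.indicator_of_mem hx, norm_div, RCLike.norm_conj,
          Complex.norm_real, norm_norm]
        exact div_self_le_one _
      · rw [Set.indicator_of_notMem hx, Set.indicator_of_notMem hx, norm_zero]
    have hgb' : ∀ x, ‖g x‖ ≤ 1 := fun x =>
      (hgb x).trans (Set.indicator_le_self' (fun _ _ => zero_le_one) x)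
    have h1 := hkey g hgm hgb'
    have e1 : ∫ x, ψ0 x * g x ∂μ = ((∫ x in A, ‖ψ0 x‖ ∂μ : ℝ) : ℂ) := by
      rw [← integral_indicator hAm, ← integral_complex_ofReal]
      refine integral_congr_ae (Eventually.of_forall fun x => ?_)
      simp only [hg]
      by_cases hx : x ∈ A
      · have h0 : (‖ψ0 x‖ : ℂ) ≠ 0 := by
          have : 1 < ‖ψ0 x‖ := hx
          exact_mod_cast (by linarith : (0 : ℝ) < ‖ψ0 x‖).ne'
        rw [Set.indicator_of_mem hx, Set.indicator_of_mem hx, mul_div_assoc', Complex.mul_conj,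
          Complex.normSq_eq_norm_sq]
        push_cast
        field_simp
      · rw [Set.indicator_of_notMem hx, Set.indicator_of_notMem hx]
        simp
    have h2 : ∀ i, ‖∫ x, f i x * g x ∂μ‖ ≤ μ.real A := by
      intro i
      calc ‖∫ x, f i x * g x ∂μ‖ ≤ ∫ x, A.indicator (fun _ => (1 : ℝ)) x ∂μ := by
            refine norm_integral_le_of_norm_le ?_ (Eventually.of_forall fun x => ?_)
            · exact (integrable_const _).indicator hAm
            · rw [norm_mul]
              calc ‖f i x‖ * ‖g x‖ ≤ 1 * ‖g x‖ :=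
                    mul_le_mul_of_nonneg_right (hb i x) (norm_nonneg _)
                _ ≤ _ := by rw [one_mul]; exact hgb x
        _ = μ.real A := by
            rw [integral_indicator hAm]
            simp
    have h3 : ‖∫ x, ψ0 x * g x ∂μ‖ ≤ μ.real A :=
      le_of_tendsto h1.norm (Eventually.of_forall h2)
    rw [e1, Complex.norm_real, Real.norm_of_nonneg (integral_nonneg fun x => norm_nonneg _)] at h3
    have h4 : ∫ x in A, (‖ψ0 x‖ - 1) ∂μ ≤ 0 := by
      rw [integral_sub hψi.norm.integrableOn (integrable_const _)]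
      simp only [integral_const, measureReal_restrict_apply_univ, smul_eq_mul, mul_one]
      linarith
    have h5 : 0 ≤ᵐ[μ.restrict A] fun x => ‖ψ0 x‖ - 1 := by
      filter_upwards [ae_restrict_mem hAm] with x hx
      have : 1 < ‖ψ0 x‖ := hx
      show (0 : ℝ) ≤ ‖ψ0 x‖ - 1
      linarith
    have h6 : ∫ x in A, (‖ψ0 x‖ - 1) ∂μ = 0 := le_antisymm h4 (integral_nonneg_of_ae h5)
    rw [integral_eq_zero_iff_of_nonneg_ae h5
      (hψi.norm.integrableOn.sub (integrable_const _))] at h6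
    have h7 : ∀ᵐ x ∂(μ.restrict A), False := by
      filter_upwards [h6, ae_restrict_mem hAm] with x hx hxA
      have : 1 < ‖ψ0 x‖ := hxA
      have hx' : ‖ψ0 x‖ - 1 = 0 := hx
      linarith
    have h8 : μ.restrict A = 0 := by
      rwa [eventually_false_iff_eq_bot, ae_eq_bot] at h7
    rwa [Measure.restrict_eq_zero] at h8
  refine ⟨Aᶜ.indicator (ψ0 : X → ℂ), hψm.indicator hAm.compl, fun x => ?_, fun g hg hgb => ?_⟩
  · by_cases hx : x ∈ A
    · rw [Set.indicator_of_notMem (by simpa using hx), norm_zero]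
      exact zero_le_one
    · rw [Set.indicator_of_mem hx]
      exact not_lt.1 hx
  · have e : ∫ x, Aᶜ.indicator (ψ0 : X → ℂ) x * g x ∂μ = ∫ x, ψ0 x * g x ∂μ := by
      refine integral_congr_ae ?_
      have h9 : ∀ᵐ x ∂μ, x ∉ A := by
        rw [ae_iff]
        simpa using hA0
      filter_upwards [h9] with x hx
      rw [Set.indicator_of_mem hx]
    rw [e]
    exact hkey g hg hgb

end Pool.Agent.N276.TT
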